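import Pool.Agent.Lib.MP_eb6d87_lc.SLP

/-!
Basic facts on the evaluation of straight line programs.
-/

set_option autoImplicit false

namespace Pool.Agent.HS

variable {R R' : Type} [CommSemiring R] [CommSemiring R']

private theorem A1_step (b : ℕ) (q : List ℕ) (a : Ins) : ∃ x, runStep b q a = q ++ [x] := by
  cases a <;> exact ⟨_, rfl⟩

private theorem A1_pstep (X : ℕ → R) (q : List R × ℕ) (a : Ins) :
    ∃ x, (pevStep X q a).1 = q.1 ++ [x] := by
  cases a <;> exact ⟨_, rfl⟩

theorem run_append_single (b : ℕ) (p : List Ins) (a : Ins) :
    run b (p ++ [a]) = runStep b (run b p) a := by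
  simp [run, List.foldl_append]

theorem run_length (b : ℕ) (p : List Ins) : (run b p).length = p.length := by
  induction p using List.reverseRecOn with
  | nil => rfl
  | append_singleton p a ih =>
    obtain ⟨x, hx⟩ := A1_step b (run b p) a
    rw [run_append_single, hx, List.length_append, List.length_append, ih]
    rfl

/-- Earlier registers are not changed (`List.foldl_append`, every step appends one element). -/
theorem run_append_getD (b : ℕ) (p q : List Ins) {k : ℕ} (hk : k < p.length) :
    (run b (p ++ q)).getD k 0 = (run b p).getD k 0 := by
  induction q using List.reverseRecOn with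
  | nil => rw [List.append_nil]
  | append_singleton q a ih =>
    obtain ⟨x, hx⟩ := A1_step b (run b (p ++ q)) a
    rw [← List.append_assoc, run_append_single, hx, List.getD_append _ _ _ _ (by
      rw [run_length, List.length_append]; omega), ih]

/-- The counter is the number of instructions `ex`. -/
theorem pev_count (X : ℕ → R) (p : List Ins) :
    (p.foldl (pevStep X) ([], 0)).2 = nex p := by
  induction p using List.reverseRecOn with
  | nil => rfl
  | append_singleton p a ih =>
    rw [List.foldl_append]
    have h : nex (p ++ [a]) = nex p + (if a.src = none then 0 else 1) := by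
      unfold nex srcs
      rw [List.filterMap_append, List.length_append]
      cases a <;> simp [Ins.src, List.filterMap]
    rw [h]
    simp only [List.foldl_cons, List.foldl_nil]
    cases a <;> simp [pevStep, ih, Ins.src]

theorem pev_append_single (X : ℕ → R) (p : List Ins) (a : Ins) :
    pev X (p ++ [a]) = (pevStep X (pev X p, nex p) a).1 := by
  have h : p.foldl (pevStep X) ([], 0) = (pev X p, nex p) := by
    rw [← pev_count X p]
    rfl
  unfold pev
  rw [List.foldl_append, h]
  rfl

theorem pev_length (X : ℕ → R) (p : List Ins) : (pev X p).length = p.length := by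
  induction p using List.reverseRecOn with
  | nil => rfl
  | append_singleton p a ih =>
    obtain ⟨x, hx⟩ := A1_pstep X (pev X p, nex p) a
    rw [pev_append_single, hx, List.length_append, List.length_append, ih]
    rfl

theorem pev_append_getD (X : ℕ → R) (p q : List Ins) {k : ℕ} (hk : k < p.length) :
    (pev X (p ++ q)).getD k 0 = (pev X p).getD k 0 := by
  induction q using List.reverseRecOn with
  | nil => rw [List.append_nil]
  | append_singleton q a ih =>
    obtain ⟨x, hx⟩ := A1_pstep X (pev X (p ++ q), nex (p ++ q)) a
    rw [← List.append_assoc, pev_append_single, hx]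
    show ((pev X (p ++ q)) ++ [x]).getD k 0 = _
    rw [List.getD_append _ _ _ _ (by
      rw [pev_length, List.length_append]; omega), ih]

theorem nex_append (p q : List Ins) : nex (p ++ q) = nex p + nex q := by
  unfold nex srcs
  rw [List.filterMap_append, List.length_append]

theorem WF.left {p q : List Ins} (h : WF (p ++ q)) : WF p := by
  intro q' r a hp
  exact h q' (r ++ q) a (by rw [hp]; simp)

theorem wf_append_single {p : List Ins} {a : Ins} (h : WF p) (ha : a.ok p.length) :
    WF (p ++ [a]) := by
  intro q r a' hp
  rcases List.eq_nil_or_concat r with rfl | ⟨r', z, rfl⟩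
  · have h1 := List.append_inj' hp rfl
    obtain ⟨h2, h3⟩ := h1
    simp only [List.cons.injEq, and_true] at h3
    rw [← h2, ← h3]
    exact ha
  · have h1 : p ++ [a] = (q ++ a' :: r') ++ [z] := by
      rw [hp]; simp
    have h2 := List.append_inj' h1 rfl
    exact h q r' a' h2.1

theorem wf_nil : WF [] := by
  intro q r a h
  simp at h

private theorem A1_fm (i : ℕ) (p : List Ins) :
    List.filterMap Ins.src (Ins.ex i :: p) = i :: List.filterMap Ins.src p :=
  List.filterMap_cons_some (f := Ins.src) (b := i) rfl

private theorem A1_src_cons_ex (i : ℕ) (p : List Ins) (s : ℕ) :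
    src (Ins.ex i :: p) (s + 1) = src p s := by
  unfold src srcs
  rw [A1_fm]
  simp

private theorem A1_srcs_cons_none (a : Ins) (p : List Ins) (h : a.src = none) :
    srcs (a :: p) = srcs p := by
  unfold srcs
  rw [List.filterMap_cons_none h]

/-- Splitting the program at the instruction number `s` of the form `ex`. Induction on `p`. -/
theorem exists_split (p : List Ins) {s : ℕ} (hs : s < nex p) :
    ∃ (q r : List Ins) (i : ℕ), p = q ++ Ins.ex i :: r ∧ nex q = s ∧ src p s = i := by
  induction p generalizing s with
  | nil => simp [nex, srcs] at hs
  | cons a p ih =>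
    by_cases ha : a.src = none
    · have h1 : nex (a :: p) = nex p := by
        unfold nex; rw [A1_srcs_cons_none a p ha]
      rw [h1] at hs
      obtain ⟨q, r, i, h2, h3, h4⟩ := ih hs
      refine ⟨a :: q, r, i, by rw [h2]; rfl, ?_, ?_⟩
      · unfold nex at h3 ⊢
        rw [A1_srcs_cons_none a q ha, h3]
      · unfold src at h4 ⊢
        rw [A1_srcs_cons_none a p ha, h4]
    · obtain ⟨i, rfl⟩ : ∃ i, a = Ins.ex i := by
        cases a with
        | ex i => exact ⟨i, rfl⟩
        | _ => exact absurd rfl ha
      have h1 : nex (Ins.ex i :: p) = nex p + 1 := by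
        unfold nex srcs
        rw [A1_fm, List.length_cons]
      cases s with
      | zero =>
        refine ⟨[], p, i, rfl, rfl, ?_⟩
        unfold src srcs
        rw [A1_fm]
        rfl
      | succ s =>
        obtain ⟨q, r, j, h2, h3, h4⟩ := ih (s := s) (by omega)
        refine ⟨Ins.ex i :: q, r, j, by rw [h2]; rfl, ?_, ?_⟩
        · have h5 : nex (Ins.ex i :: q) = nex q + 1 := by
            unfold nex srcs
            rw [A1_fm, List.length_cons]
          rw [h5, h3]
        · rw [A1_src_cons_ex, h4]

/-- The source number `s` is a register. If `p = q ++ Ins.ex i :: r` with `nex q = s` then `src p s = i`, and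
`i < q.length` by `WF`. -/
theorem src_lt {p : List Ins} (h : WF p) {s : ℕ} (hs : s < nex p) : src p s < p.length := by
  obtain ⟨q, r, i, h1, _, h3⟩ := exists_split p hs
  have h4 : i < q.length := h q r (Ins.ex i) h1
  rw [h3, h1, List.length_append]
  omega

private theorem A1_src_append (q r : List Ins) (i : ℕ) :
    src (q ++ Ins.ex i :: r) (nex q) = i := by
  unfold src nex srcs
  rw [List.filterMap_append, List.getD_append_right _ _ _ _ le_rfl,
    A1_fm]
  simp

/-- The execution is the evaluation at `X s = b ^ EE b p s`. Proof: show by induction on the initial part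
`q` of `p = q ++ r` (`List.reverseRecOn`) that `run b q = pev (fun s => b ^ EE b p s) q`. For the step
`q ++ [ex i]`: `i < q.length` by `WF`, `src p (nex q) = i`, so that `EE b p (nex q) = (run b p).getD i 0 =
(run b q).getD i 0` by `run_append_getD`. -/
theorem run_eq_pev (b : ℕ) {p : List Ins} (h : WF p) :
    run b p = pev (fun s => b ^ EE b p s) p := by
  have key : ∀ q r : List Ins, p = q ++ r → run b q = pev (fun s => b ^ EE b p s) q := by
    intro q
    induction q using List.reverseRecOn with
    | nil => intro r _; rfl
    | append_singleton q a ih =>
      intro r hr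
      have hr' : p = q ++ (a :: r) := by rw [hr]; simp
      have h1 := ih (a :: r) hr'
      rw [run_append_single, pev_append_single, ← h1]
      cases a with
      | ex i =>
        have h2 : i < q.length := h q r (Ins.ex i) hr'
        have h3 : src p (nex q) = i := by rw [hr', A1_src_append]
        have h4 : EE b p (nex q) = (run b q).getD i 0 := by
          unfold EE
          rw [h3]
          conv_lhs => rw [hr']
          exact run_append_getD b q _ h2
        show run b q ++ [b ^ (run b q).getD i 0] = run b q ++ [b ^ EE b p (nex q)]
        rw [h4]
      | cst c => rfl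
      | add i j => rfl
      | mul i j => rfl
      | pw i c => rfl
  exact key p [] (by simp)

private theorem A1_getD_map (φ : R →+* R') (l : List R) (k : ℕ) :
    (l.map φ).getD k 0 = φ (l.getD k 0) := by
  have h := List.getD_map (l := l) (d := (0 : R)) (n := k) (f := φ)
  rw [map_zero] at h
  exact h

/-- Ring homomorphisms. Induction on the program with `pev_append_single` (`List.reverseRecOn`), `List.getD_map`. -/
theorem map_pev (φ : R →+* R') (X : ℕ → R) (p : List Ins) :
    (pev X p).map φ = pev (fun s => φ (X s)) p := by
  induction p using List.reverseRecOn with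
  | nil => rfl
  | append_singleton p a ih =>
    rw [pev_append_single, pev_append_single, ← ih]
    cases a with
    | cst c => simp [pevStep]
    | add i j =>
      simp only [pevStep, List.map_append, List.map_cons, List.map_nil, A1_getD_map, map_add]
    | mul i j =>
      simp only [pevStep, List.map_append, List.map_cons, List.map_nil, A1_getD_map, map_mul]
    | pw i c =>
      simp only [pevStep, List.map_append, List.map_cons, List.map_nil, A1_getD_map, map_pow]
    | ex i => simp [pevStep]

theorem map_pev_getD (φ : R →+* R') (X : ℕ → R) (p : List Ins) (k : ℕ) :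
    φ ((pev X p).getD k 0) = (pev (fun s => φ (X s)) p).getD k 0 := by
  rw [← map_pev, A1_getD_map]

/-- Only the values `X s` for `s < nex p` are used. -/
theorem pev_congr {X Y : ℕ → R} (p : List Ins) (h : ∀ s < nex p, X s = Y s) : pev X p = pev Y p := by
  induction p using List.reverseRecOn with
  | nil => rfl
  | append_singleton p a ih =>
    have h1 : pev X p = pev Y p := ih fun s hs => h s (by rw [nex_append]; omega)
    rw [pev_append_single, pev_append_single, h1]
    cases a with
    | cst c => rfl
    | add i j => rfl
    | mul i j => rfl
    | pw i c => rfl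
    | ex i =>
      show pev Y p ++ [X (nex p)] = pev Y p ++ [Y (nex p)]
      rw [h (nex p) (by
        rw [nex_append]
        have : nex [Ins.ex i] = 1 := rfl
        omega)]

/-- The source number `j` depends only on `X s` for `s < j`: split `p = q ++ ex i :: r` with `nex q = j`
(`exists_split`), `i < q.length`, so the register `i` is computed by `q`; then `pev_congr` for `q`. -/
theorem pev_src_congr {X Y : ℕ → R} {p : List Ins} (hp : WF p) {j : ℕ} (hj : j < nex p)
    (h : ∀ s < j, X s = Y s) : (pev X p).getD (src p j) 0 = (pev Y p).getD (src p j) 0 := by
  obtain ⟨q, r, i, h1, h2, h3⟩ := exists_split p hj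
  have h4 : i < q.length := hp q r (Ins.ex i) h1
  rw [h3]
  conv_lhs => rw [h1]
  conv_rhs => rw [h1]
  rw [pev_append_getD X q _ h4, pev_append_getD Y q _ h4,
    pev_congr q fun s hs => h s (by rw [← h2]; exact hs)]

theorem psize_append (p q : List Ins) : psize (p ++ q) = psize p + psize q := by
  simp [psize]

theorem length_le_psize (p : List Ins) : p.length ≤ psize p := by
  induction p with
  | nil => exact Nat.zero_le _
  | cons a p ih =>
    have h1 : psize (a :: p) = a.size + psize p := by simp [psize]
    have h2 : 1 ≤ a.size := by cases a <;> simp [Ins.size]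
    rw [h1, List.length_cons]
    omega

end Pool.Agent.HS
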