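import Pool.Agent.Lib.MP_eb6d87_lc.SLP

/-!
The cluster lemma.
-/

set_option autoImplicit false

namespace Pool.Agent.HS

open MvPolynomial

/-- `X` satisfies all small true relations between the exponents `E s`, `s < S`. -/
def Rel (b : ℕ) (S Δ W : ℕ) (E : ℕ → ℕ) (X : ℕ → ℚ) : Prop :=
  ∀ (u : ℕ → ℤ) (om : ℤ), (∀ s, |u s| ≤ Δ) → |om| ≤ W →
    ∑ s ∈ Finset.range S, u s * (E s : ℤ) = om → ∏ s ∈ Finset.range S, X s ^ u s = (b : ℚ) ^ om

private theorem A4_abs_sum_lt {b : ℕ} (hb : 2 ≤ b) {G e : ℕ} {E : ℕ → ℕ} (c : (ℕ →₀ ℕ) → ℤ)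
    (T : Finset (ℕ →₀ ℕ)) (hG : ∑ m ∈ T, (c m).natAbs < 2 ^ G)
    (he : ∀ m ∈ T, (m.sum fun s a => a * E s) ≤ e) :
    |∑ m ∈ T, c m * (b : ℤ) ^ (m.sum fun s a => a * E s)| < (b : ℤ) ^ (e + G) := by
  have hb0 : (0 : ℤ) < b := by exact_mod_cast (by omega : 0 < b)
  have hb1 : (1 : ℤ) ≤ b := by exact_mod_cast (by omega : 1 ≤ b)
  calc |∑ m ∈ T, c m * (b : ℤ) ^ (m.sum fun s a => a * E s)|
      ≤ ∑ m ∈ T, |c m * (b : ℤ) ^ (m.sum fun s a => a * E s)| := Finset.abs_sum_le_sum_abs _ _
    _ ≤ ∑ m ∈ T, ((c m).natAbs : ℤ) * (b : ℤ) ^ e := by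
        apply Finset.sum_le_sum
        intro m hm
        rw [abs_mul, Int.abs_eq_natAbs (c m), abs_of_pos (pow_pos hb0 _)]
        exact mul_le_mul_of_nonneg_left (pow_le_pow_right₀ hb1 (he m hm)) (by positivity)
    _ = ((∑ m ∈ T, (c m).natAbs : ℕ) : ℤ) * (b : ℤ) ^ e := by
        rw [← Finset.sum_mul, Nat.cast_sum]
    _ < (2 : ℤ) ^ G * (b : ℤ) ^ e := by
        apply mul_lt_mul_of_pos_right _ (pow_pos hb0 _)
        exact_mod_cast hG
    _ ≤ (b : ℤ) ^ G * (b : ℤ) ^ e := by
        apply mul_le_mul_of_nonneg_right _ (pow_pos hb0 _).le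
        exact pow_le_pow_left₀ (by norm_num) (by exact_mod_cast hb) _
    _ = (b : ℤ) ^ (e + G) := by rw [← pow_add, add_comm]

private theorem A4_eval_eq (b : ℕ) (E : ℕ → ℕ) (P : MvPolynomial ℕ ℤ) :
    eval (fun s => (b : ℤ) ^ E s) P =
      ∑ m ∈ P.support, P.coeff m * (b : ℤ) ^ (m.sum fun s a => a * E s) := by
  rw [eval_eq]
  apply Finset.sum_congr rfl
  intro m _
  congr 1
  rw [Finsupp.sum, ← Finset.prod_pow_eq_pow_sum]
  apply Finset.prod_congr rfl
  intro s _
  rw [← pow_mul, mul_comm]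

private theorem A4_gap {M : Type} (T : Finset M) (e : M → ℕ) (G μ : ℕ) (m₀ : M) (hm₀ : m₀ ∈ T)
    (hμ : e m₀ = μ) :
    ∃ j < T.card, ∀ m ∈ T, e m ≤ μ + j * G ∨ μ + (j + 1) * G < e m := by
  classical
  by_contra hcon
  push Not at hcon
  have hch : ∀ j : ℕ, ∃ m, j < T.card → m ∈ T ∧ μ + j * G < e m ∧ e m ≤ μ + (j + 1) * G := by
    intro j
    by_cases hj : j < T.card
    · obtain ⟨m, hm⟩ := hcon j hj
      exact ⟨m, fun _ => hm⟩
    · exact ⟨m₀, fun h => absurd h hj⟩
  choose f hf using hch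
  have hmono : ∀ j j', j < T.card → j' < T.card → j < j' → e (f j) < e (f j') := by
    intro j j' hj hj' hjj
    have h1 := (hf j hj).2.2
    have h2 := (hf j' hj').2.1
    have h3 : (j + 1) * G ≤ j' * G := Nat.mul_le_mul_right G hjj
    omega
  have hcard : (Finset.range T.card).card ≤ (T.erase m₀).card := by
    apply Finset.card_le_card_of_injOn f
    · intro j hj
      have hj' : j < T.card := by simpa using hj
      have h := hf j hj'
      rw [Finset.mem_coe, Finset.mem_erase]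
      refine ⟨?_, h.1⟩
      intro heq
      rw [heq, hμ] at h
      omega
    · intro j hj j' hj' heq
      have hj1 : j < T.card := by simpa using hj
      have hj2 : j' < T.card := by simpa using hj'
      rcases lt_trichotomy j j' with h | h | h
      · have := hmono j j' hj1 hj2 h
        rw [heq] at this
        omega
      · exact h
      · have := hmono j' j hj2 hj1 h
        rw [heq] at this
        omega
  rw [Finset.card_range, Finset.card_erase_of_mem hm₀] at hcard
  have : 0 < T.card := Finset.card_pos.2 ⟨m₀, hm₀⟩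
  omega

private theorem A4_main {b : ℕ} (hb : 2 ≤ b) {S Δ G W : ℕ} {E : ℕ → ℕ} {X : ℕ → ℚ}
    (hX : ∀ s < S, 0 < X s) (hrel : Rel b S Δ W E X) (c : (ℕ →₀ ℕ) → ℤ) :
    ∀ (n : ℕ) (T : Finset (ℕ →₀ ℕ)), T.card = n →
      (∀ m ∈ T, ∀ s, m s ≤ Δ) → (∀ m ∈ T, ∀ s, S ≤ s → m s = 0) →
      ∑ m ∈ T, (c m).natAbs < 2 ^ G → n * G ≤ W →
      ∑ m ∈ T, c m * (b : ℤ) ^ (m.sum fun s a => a * E s) = 0 →
      ∑ m ∈ T, (c m : ℚ) * ∏ s ∈ Finset.range S, X s ^ m s = 0 := by
  classical
  intro n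
  induction n using Nat.strong_induction_on with
  | _ n ih =>
    intro T hn hΔ hS hG hW h0
    rcases T.eq_empty_or_nonempty with hT | hT
    · subst hT
      simp
    have hb0 : (0 : ℤ) < b := by exact_mod_cast (by omega : 0 < b)
    have hbq : (0 : ℚ) < b := by exact_mod_cast (by omega : 0 < b)
    set e : (ℕ →₀ ℕ) → ℕ := fun m => m.sum fun s a => a * E s with he
    obtain ⟨v₀, hv₀, hmin⟩ := Finset.exists_min_image T e hT
    obtain ⟨j, hj, hgap⟩ := A4_gap T e G (e v₀) v₀ hv₀ rfl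
    set Lo := T.filter (fun m => e m ≤ e v₀ + j * G) with hLo
    set Hi := T.filter (fun m => ¬ e m ≤ e v₀ + j * G) with hHi
    have hsplit : ∀ (R : Type) [AddCommMonoid R] (g : (ℕ →₀ ℕ) → R),
        ∑ m ∈ Lo, g m + ∑ m ∈ Hi, g m = ∑ m ∈ T, g m := by
      intro R _ g
      exact Finset.sum_filter_add_sum_filter_not T _ g
    have hLoT : Lo ⊆ T := Finset.filter_subset _ _
    have hHiT : Hi ⊆ T := Finset.filter_subset _ _
    have hv₀Lo : v₀ ∈ Lo := by
      rw [hLo, Finset.mem_filter]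
      exact ⟨hv₀, by omega⟩
    have hGLo : ∑ m ∈ Lo, (c m).natAbs < 2 ^ G :=
      lt_of_le_of_lt (Finset.sum_le_sum_of_subset hLoT) hG
    have hGHi : ∑ m ∈ Hi, (c m).natAbs < 2 ^ G :=
      lt_of_le_of_lt (Finset.sum_le_sum_of_subset hHiT) hG
    have hdvdHi : (b : ℤ) ^ (e v₀ + j * G + G) ∣ ∑ m ∈ Hi, c m * (b : ℤ) ^ e m := by
      apply Finset.dvd_sum
      intro m hm
      rw [hHi, Finset.mem_filter] at hm
      have h1 := hgap m hm.1
      have h2 : e v₀ + j * G + G ≤ e m := by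
        rcases h1 with h1 | h1
        · exact absurd h1 hm.2
        · have : (j + 1) * G = j * G + G := by ring
          omega
      exact Dvd.dvd.mul_left (pow_dvd_pow _ h2) _
    have hsum := hsplit ℤ (fun m => c m * (b : ℤ) ^ e m)
    rw [show ∑ m ∈ T, c m * (b : ℤ) ^ e m = 0 from h0] at hsum
    have hdvdLo : (b : ℤ) ^ (e v₀ + j * G + G) ∣ ∑ m ∈ Lo, c m * (b : ℤ) ^ e m := by
      have : ∑ m ∈ Lo, c m * (b : ℤ) ^ e m = -∑ m ∈ Hi, c m * (b : ℤ) ^ e m := by
        linarith
      rw [this]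
      exact (dvd_neg).2 hdvdHi
    have habs : |∑ m ∈ Lo, c m * (b : ℤ) ^ e m| < (b : ℤ) ^ (e v₀ + j * G + G) := by
      apply A4_abs_sum_lt hb c Lo hGLo
      intro m hm
      exact (Finset.mem_filter.1 hm).2
    have hLo0 : ∑ m ∈ Lo, c m * (b : ℤ) ^ e m = 0 := Int.eq_zero_of_abs_lt_dvd hdvdLo habs
    have hHi0 : ∑ m ∈ Hi, c m * (b : ℤ) ^ e m = 0 := by
      rw [hLo0, zero_add] at hsum
      exact hsum
    have hcardHi : Hi.card < n := by
      rw [← hn]
      apply Finset.card_lt_card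
      rw [Finset.ssubset_iff_of_subset hHiT]
      refine ⟨v₀, hv₀, ?_⟩
      rw [hHi, Finset.mem_filter]
      intro h
      exact h.2 (by omega)
    have hHiX := ih Hi.card hcardHi Hi rfl (fun m hm => hΔ m (hHiT hm))
      (fun m hm => hS m (hHiT hm)) hGHi
      (le_trans (Nat.mul_le_mul_right G hcardHi.le) hW) hHi0
    rw [← hsplit ℚ (fun m => (c m : ℚ) * ∏ s ∈ Finset.range S, X s ^ m s), hHiX, add_zero]
    -- the low part
    have hesum : ∀ m ∈ T, ((e m : ℕ) : ℤ) = ∑ s ∈ Finset.range S, (m s : ℤ) * (E s : ℤ) := by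
      intro m hm
      have h1 : e m = ∑ s ∈ Finset.range S, m s * E s := by
        apply Finsupp.sum_of_support_subset
        · intro s hs
          rw [Finset.mem_range]
          by_contra hcon
          exact (Finsupp.mem_support_iff.1 hs) (hS m hm s (by omega))
        · intro s _
          simp
      rw [h1]
      push_cast
      rfl
    have hprod : ∀ v ∈ Lo, ∏ s ∈ Finset.range S, X s ^ v s =
        (b : ℚ) ^ e v * ((b : ℚ) ^ (-(e v₀ : ℤ)) * ∏ s ∈ Finset.range S, X s ^ v₀ s) := by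
      intro v hv
      have hvT := hLoT hv
      have hvle := (Finset.mem_filter.1 hv).2
      have hvge := hmin v hvT
      have hr := hrel (fun s => (v s : ℤ) - (v₀ s : ℤ)) ((e v : ℤ) - (e v₀ : ℤ))
        (by
          intro s
          have h1 := hΔ v hvT s
          have h2 := hΔ v₀ hv₀ s
          rw [abs_le]
          constructor <;> omega)
        (by
          have h3 : j * G ≤ n * G := Nat.mul_le_mul_right G (by omega)
          rw [abs_le]
          constructor <;> omega)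
        (by
          rw [hesum v hvT, hesum v₀ hv₀, ← Finset.sum_sub_distrib]
          apply Finset.sum_congr rfl
          intro s _
          ring)
      have hXne : ∀ s ∈ Finset.range S, X s ≠ 0 := fun s hs =>
        (hX s (Finset.mem_range.1 hs)).ne'
      have h4 : ∏ s ∈ Finset.range S, X s ^ ((v s : ℤ) - (v₀ s : ℤ)) =
          (∏ s ∈ Finset.range S, X s ^ v s) / ∏ s ∈ Finset.range S, X s ^ v₀ s := by
        rw [← Finset.prod_div_distrib]
        apply Finset.prod_congr rfl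
        intro s hs
        rw [zpow_sub₀ (hXne s hs), zpow_natCast, zpow_natCast]
      rw [h4] at hr
      have h5 : (∏ s ∈ Finset.range S, X s ^ v₀ s) ≠ 0 := by
        rw [Finset.prod_ne_zero_iff]
        intro s hs
        exact pow_ne_zero _ (hXne s hs)
      rw [div_eq_iff h5] at hr
      rw [hr, sub_eq_add_neg, zpow_add₀ hbq.ne', zpow_natCast]
      ring
    calc ∑ m ∈ Lo, (c m : ℚ) * ∏ s ∈ Finset.range S, X s ^ m s
        = ∑ m ∈ Lo, ((c m : ℚ) * (b : ℚ) ^ e m) *
          ((b : ℚ) ^ (-(e v₀ : ℤ)) * ∏ s ∈ Finset.range S, X s ^ v₀ s) := by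
          apply Finset.sum_congr rfl
          intro v hv
          rw [hprod v hv]
          ring
      _ = (((∑ m ∈ Lo, c m * (b : ℤ) ^ e m : ℤ)) : ℚ) *
          ((b : ℚ) ^ (-(e v₀ : ℤ)) * ∏ s ∈ Finset.range S, X s ^ v₀ s) := by
          rw [← Finset.sum_mul]
          push_cast
          rfl
      _ = 0 := by
          rw [hLo0]
          simp

/-- The value of a polynomial of norm less than `2 ^ G` in powers of `b`, if all its monomials `v` have
exponents `v.E ≤ e`, is less than `b ^ (e + G)` in absolute value. -/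
theorem abs_eval_lt {b : ℕ} (hb : 2 ≤ b) {G e : ℕ} {E : ℕ → ℕ} {P : MvPolynomial ℕ ℤ}
    (hG : norm1 P < 2 ^ G) (he : ∀ m ∈ P.support, (m.sum fun s a => a * E s) ≤ e) :
    |eval (fun s => (b : ℤ) ^ E s) P| < (b : ℤ) ^ (e + G) := by
  rw [A4_eval_eq]
  exact A4_abs_sum_lt hb (fun m => P.coeff m) P.support hG he

/-- CLUSTER LEMMA. A polynomial with few monomials, small degrees and small coefficients which
vanishes at the point `(b ^ E 0, b ^ E 1, ...)` vanishes at every positive point `X` which satisfies all small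
true multiplicative relations.
Proof. Strong induction on the number `N` of monomials (for all `P`); `N = 0` is trivial. Let
`e m = ∑ s, m s * E s` for a monomial `m` (a finite sum over the support of `m`) and let `μ` be the minimum of `e` on
the support. Among the `N` disjoint intervals `(μ + j * G, μ + (j + 1) * G]`, `j < N`, one contains no value
`e m` (the value `μ` is in none of them, so at most `N - 1` of them contain a value; pigeonhole). Let
`Lo` be the sum of the terms with `e m ≤ μ + j * G` and `Hi` the sum of the terms with `e m > μ + (j + 1) * G`,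
`P = Lo + Hi`. `b ^ (μ + (j + 1) * G)` divides the value of `Hi`, hence the value of `Lo`, which is smaller
than `b ^ (μ + (j + 1) * G)` in absolute value (`abs_eval_lt`, norm of `Lo` at most the norm of `P`); so the value of
`Lo` is `0` and the value of `Hi` is `0`. `Lo` is not empty, so `Hi` has fewer monomials, and `Hi(X) = 0` by
induction. For `Lo`: let `v₀` be a monomial with `e v₀ = μ`. For `v` in `Lo` let `u = v - v₀` (differences of
exponents, `|u s| ≤ Δ`), `om = e v - μ ∈ [0, N * G] ⊆ [0, W]`. All variables are `< S`, so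
`∑ s < S, u s * E s = om`, and by `Rel`: `X ^ v = b ^ (e v - μ) * X ^ v₀`. So
`Lo(X) = ∑ c_v X ^ v = X ^ v₀ * b ^ (-μ) * ∑ c_v b ^ (e v) = X ^ v₀ * b ^ (-μ) * Lo(b ^ E) = 0`. -/
theorem cluster {b : ℕ} (hb : 2 ≤ b) {S Δ G W : ℕ} {E : ℕ → ℕ} {X : ℕ → ℚ} (hX : ∀ s < S, 0 < X s)
    (hrel : Rel b S Δ W E X) (P : MvPolynomial ℕ ℤ) (h1 : ∀ s, degreeOf s P ≤ Δ)
    (h2 : ∀ s, S ≤ s → degreeOf s P = 0) (hG : norm1 P < 2 ^ G) (hW : P.support.card * G ≤ W)
    (h0 : eval (fun s => (b : ℤ) ^ E s) P = 0) : aeval X P = 0 := by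
  rw [A4_eval_eq] at h0
  have hΔ : ∀ m ∈ P.support, ∀ s, m s ≤ Δ := by
    intro m hm s
    exact le_trans (monomial_le_degreeOf s hm) (h1 s)
  have hS : ∀ m ∈ P.support, ∀ s, S ≤ s → m s = 0 := by
    intro m hm s hs
    have h3 := monomial_le_degreeOf s hm
    rw [h2 s hs] at h3
    omega
  have key := A4_main hb hX hrel (fun m => P.coeff m) P.support.card P.support rfl hΔ hS hG hW h0
  rw [aeval_def, eval₂_eq]
  rw [← key]
  apply Finset.sum_congr rfl
  intro m hm
  congr 1
  apply Finset.prod_subset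
  · intro s hs
    rw [Finset.mem_range]
    by_contra hcon
    exact (Finsupp.mem_support_iff.1 hs) (hS m hm s (by omega))
  · intro s _ hs
    rw [Finsupp.notMem_support_iff.1 hs, pow_zero]

end Pool.Agent.HS
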