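import Mathlib

/-!
The parameters of the algorithm, as functions of the size `n`.
-/

set_option autoImplicit false

namespace Pool.Agent.HS

def kap (n : ℕ) : ℕ := 4 * n ^ 2 + n

def vs (n : ℕ) : ℕ := n * kap n + n ^ 2 + n

def gam (n : ℕ) : ℕ := 2 * vs n + 2 * n

def mu (n : ℕ) : ℕ := gam n + (kap n + 2) * n + 4 * n + 8

def sig (n : ℕ) : ℕ := gam n + mu n + 3 * n + 6

def em (n : ℕ) : ℕ := 2 * sig n

def t0 (n : ℕ) : ℕ := (kap n + 2) * n + n + 3

def tn (n : ℕ) : ℕ := 2 * em n * t0 n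

/-- the number of random bits of one stage -/
def rn (n : ℕ) : ℕ := n * mu n + tn n * em n

/-- the sample space of one stage: a point and moduli, all numbers increased by `1` -/
abbrev Om (n : ℕ) : Type := (Fin n → Fin (2 ^ mu n)) × (Fin (tn n) → Fin (2 ^ em n))

/-- the point -/
def zOf {n : ℕ} (ω : Om n) : Fin n → ℕ := fun l => (ω.1 l : ℕ) + 1

/-- the modulus -/
def mOf {n : ℕ} (ω : Om n) : ℕ := ∏ t, ((ω.2 t : ℕ) + 1)

end Pool.Agent.HS
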