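import Mathlib

/-!
Straight line programs: definitions.
-/

set_option autoImplicit false

namespace Pool.Agent.HS

/-- Instructions of straight line programs. Every instruction writes its result to a new register; `i`, `j` are
numbers of earlier registers. -/
inductive Ins : Type
  /-- a constant -/
  | cst (c : ℕ)
  /-- the sum of two registers -/
  | add (i j : ℕ)
  /-- the product of two registers -/
  | mul (i j : ℕ)
  /-- the power of a register with a constant exponent -/
  | pw (i c : ℕ)
  /-- the power of the base with a register as exponent -/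
  | ex (i : ℕ)
  deriving DecidableEq

/-- The arguments of the instruction are registers before the register `k`. -/
def Ins.ok (k : ℕ) : Ins → Prop
  | .cst _ => True
  | .add i j => i < k ∧ j < k
  | .mul i j => i < k ∧ j < k
  | .pw i _ => i < k
  | .ex i => i < k

/-- The size of an instruction. -/
def Ins.size : Ins → ℕ
  | .cst c => Nat.size c + 1
  | .add _ _ => 1
  | .mul _ _ => 1
  | .pw _ c => Nat.size c + 1
  | .ex _ => 1

/-- The sources of the instructions `ex`. -/
def Ins.src : Ins → Option ℕ
  | .ex i => some i
  | _ => none

/-- The size of a program. -/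
def psize (p : List Ins) : ℕ := (p.map Ins.size).sum

/-- The arguments of all instructions are earlier registers. -/
def WF (p : List Ins) : Prop :=
  ∀ (q r : List Ins) (a : Ins), p = q ++ a :: r → a.ok q.length

/-- The source registers of the instructions `ex`, in their order. -/
def srcs (p : List Ins) : List ℕ := p.filterMap Ins.src

/-- The number of the instructions `ex`. -/
def nex (p : List Ins) : ℕ := (srcs p).length

/-- One step of the execution with base `b`. -/
def runStep (b : ℕ) (q : List ℕ) : Ins → List ℕ
  | .cst c => q ++ [c]
  | .add i j => q ++ [q.getD i 0 + q.getD j 0]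
  | .mul i j => q ++ [q.getD i 0 * q.getD j 0]
  | .pw i c => q ++ [q.getD i 0 ^ c]
  | .ex i => q ++ [b ^ q.getD i 0]

/-- The contents of all registers after the execution with base `b`. -/
def run (b : ℕ) (p : List Ins) : List ℕ := p.foldl (runStep b) []

/-- The source register of the instruction number `s` of the form `ex`. -/
def src (p : List Ins) (s : ℕ) : ℕ := (srcs p).getD s 0

/-- The exponent of the instruction number `s` of the form `ex`. -/
def EE (b : ℕ) (p : List Ins) (s : ℕ) : ℕ := (run b p).getD (src p s) 0

variable {R : Type} [CommSemiring R]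

/-- One step of the evaluation, where the instruction number `s` of the form `ex` has the result `X s`; the
state consists of the registers and the number of instructions `ex` so far. -/
def pevStep (X : ℕ → R) (q : List R × ℕ) : Ins → List R × ℕ
  | .cst c => (q.1 ++ [(c : R)], q.2)
  | .add i j => (q.1 ++ [q.1.getD i 0 + q.1.getD j 0], q.2)
  | .mul i j => (q.1 ++ [q.1.getD i 0 * q.1.getD j 0], q.2)
  | .pw i c => (q.1 ++ [q.1.getD i 0 ^ c], q.2)
  | .ex _ => (q.1 ++ [X q.2], q.2 + 1)

/-- The registers, where the instruction number `s` of the form `ex` has the result `X s`. -/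
def pev (X : ℕ → R) (p : List Ins) : List R := (p.foldl (pevStep X) ([], 0)).1

/-- One step of the homogeneous evaluation: a register `(N, d)` stands for `N / h ^ d`, the instruction
number `s` of the form `ex` has the result `X s / h`. -/
def hevStep (h : R) (X : ℕ → R) (q : List (R × ℕ) × ℕ) : Ins → List (R × ℕ) × ℕ
  | .cst c => (q.1 ++ [((c : R), 0)], q.2)
  | .add i j => (q.1 ++ [((q.1.getD i (0, 0)).1 * h ^ (q.1.getD j (0, 0)).2 +
      (q.1.getD j (0, 0)).1 * h ^ (q.1.getD i (0, 0)).2,
      (q.1.getD i (0, 0)).2 + (q.1.getD j (0, 0)).2)], q.2)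
  | .mul i j => (q.1 ++ [((q.1.getD i (0, 0)).1 * (q.1.getD j (0, 0)).1,
      (q.1.getD i (0, 0)).2 + (q.1.getD j (0, 0)).2)], q.2)
  | .pw i c => (q.1 ++ [((q.1.getD i (0, 0)).1 ^ c, c * (q.1.getD i (0, 0)).2)], q.2)
  | .ex _ => (q.1 ++ [(X q.2, 1)], q.2 + 1)

/-- The homogeneous evaluation. -/
def hev (h : R) (X : ℕ → R) (p : List Ins) : List (R × ℕ) := (p.foldl (hevStep h X) ([], 0)).1

/-- The degree of the register `k`: the second component of the homogeneous evaluation. -/
def dg (p : List Ins) (k : ℕ) : ℕ := ((hev (1 : ℕ) (fun _ => 1) p).getD k (0, 0)).2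

/-- The polynomial of the register `k`: the variable `s` stands for the result of the instruction number `s` of
the form `ex`. -/
noncomputable def PP (p : List Ins) (k : ℕ) : MvPolynomial ℕ ℤ :=
  (pev (fun s => (MvPolynomial.X s : MvPolynomial ℕ ℤ)) p).getD k 0

/-- The sum of the absolute values of the coefficients. -/
noncomputable def norm1 (P : MvPolynomial ℕ ℤ) : ℕ := ∑ m ∈ P.support, (P.coeff m).natAbs

/-- The sum of the degrees of the first `i + 1` sources. -/
def dT (p : List Ins) (i : ℕ) : ℕ := ∑ j ∈ Finset.range (i + 1), dg p (src p j)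

/-- The source number `j`, brought to the degree `dT p i`. -/
def Qh (h : R) (X : ℕ → R) (p : List Ins) (i j : ℕ) : R :=
  ((hev h X p).getD (src p j) (0, 0)).1 * h ^ (dT p i - dg p (src p j))

end Pool.Agent.HS
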