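import Mathlib

/-!
A random process which reads its random bits in blocks.
-/

set_option autoImplicit false

namespace Pool.Agent.HS

variable {ρ : Type}

/-- The state after `i` steps; step `i` uses the block number `i` of length `L` of the string. -/
def proc (st : ℕ → ρ → List Bool → ρ) (L : ℕ) (r0 : ρ) : ℕ → List Bool → ρ
  | 0, _ => r0
  | i + 1, w => st i (proc st L r0 i w) ((w.drop (i * L)).take L)

/-- The state after `i` steps depends only on the first `i * L` bits. -/
theorem proc_append (st : ℕ → ρ → List Bool → ρ) (L : ℕ) (r0 : ρ) (i : ℕ) (u v : List Bool)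
    (hu : u.length = i * L) : proc st L r0 i (u ++ v) = proc st L r0 i u := by
  induction i generalizing u v with
  | zero => rfl
  | succ i ih =>
    have hu' : u.length = i * L + L := by rw [hu, Nat.succ_mul]
    have h1 : (u.take (i * L)).length = i * L := by
      rw [List.length_take]
      omega
    have h2 : proc st L r0 i (u ++ v) = proc st L r0 i (u.take (i * L)) := by
      have h3 : u ++ v = u.take (i * L) ++ (u.drop (i * L) ++ v) := by
        rw [← List.append_assoc, List.take_append_drop]
      rw [h3]
      exact ih _ _ h1
    have h4 : proc st L r0 i u = proc st L r0 i (u.take (i * L)) := by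
      have h3 : u = u.take (i * L) ++ u.drop (i * L) := (List.take_append_drop _ _).symm
      conv_lhs => rw [h3]
      exact ih _ _ h1
    have h5 : ((u ++ v).drop (i * L)).take L = (u.drop (i * L)).take L := by
      rw [List.drop_append_of_le_length (by omega), List.take_append_of_le_length]
      rw [List.length_drop]
      omega
    simp only [proc]
    rw [h2, h4, h5]

/-- A property of the first `a` bits and a property of the next `b` bits which depends on the first ones:
counting by the bijection of the strings of length `a + b` with the pairs of strings. -/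
theorem count_cond {a b N : ℕ} (P : List Bool → Prop) (Q : List Bool → List Bool → Prop)
    [DecidablePred P] [∀ u, DecidablePred (Q u)]
    (h : ∀ u : Fin a → Bool, P (List.ofFn u) →
      N * (Finset.univ.filter fun v : Fin b → Bool => Q (List.ofFn u) (List.ofFn v)).card ≤ 2 ^ b) :
    N * (Finset.univ.filter fun w : Fin (a + b) → Bool =>
      P ((List.ofFn w).take a) ∧ Q ((List.ofFn w).take a) ((List.ofFn w).drop a)).card ≤ 2 ^ (a + b) := by
  classical
  have h1 : (Finset.univ.filter fun w : Fin (a + b) → Bool =>
      P ((List.ofFn w).take a) ∧ Q ((List.ofFn w).take a) ((List.ofFn w).drop a)).card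
      = (Finset.univ.filter fun x : (Fin a → Bool) × (Fin b → Bool) =>
        P (List.ofFn x.1) ∧ Q (List.ofFn x.1) (List.ofFn x.2)).card := by
    symm
    refine Finset.card_equiv (Fin.appendEquiv a b) fun x => ?_
    obtain ⟨u, v⟩ := x
    simp only [Finset.mem_filter, Finset.mem_univ, true_and]
    have h2 : List.ofFn ((Fin.appendEquiv a b) (u, v)) = List.ofFn u ++ List.ofFn v := by
      rw [← List.ofFn_fin_append]
      rfl
    rw [h2, List.take_append_of_le_length (by simp), List.take_of_length_le (by simp),
      List.drop_append_of_le_length (by simp), List.drop_of_length_le (by simp), List.nil_append]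
  have h3 : (Finset.univ.filter fun x : (Fin a → Bool) × (Fin b → Bool) =>
        P (List.ofFn x.1) ∧ Q (List.ofFn x.1) (List.ofFn x.2)).card
      = ∑ u : Fin a → Bool, (Finset.univ.filter fun v : Fin b → Bool =>
        P (List.ofFn u) ∧ Q (List.ofFn u) (List.ofFn v)).card := by
    rw [Finset.card_filter, Fintype.sum_prod_type]
    refine Finset.sum_congr rfl fun u _ => ?_
    rw [Finset.card_filter]
  rw [h1, h3, Finset.mul_sum]
  calc ∑ u : Fin a → Bool, N * (Finset.univ.filter fun v : Fin b → Bool =>
        P (List.ofFn u) ∧ Q (List.ofFn u) (List.ofFn v)).card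
      ≤ ∑ _u : Fin a → Bool, 2 ^ b := by
        refine Finset.sum_le_sum fun u _ => ?_
        by_cases hu : P (List.ofFn u)
        · refine le_trans (Nat.mul_le_mul_left _ (Finset.card_le_card ?_)) (h u hu)
          intro v hv
          rw [Finset.mem_filter] at hv ⊢
          exact ⟨hv.1, hv.2.2⟩
        · have h4 : (Finset.univ.filter fun v : Fin b → Bool =>
              P (List.ofFn u) ∧ Q (List.ofFn u) (List.ofFn v)) = ∅ := by
            rw [Finset.filter_eq_empty_iff]
            intro v _ hv
            exact hu hv.1
          rw [h4]
          simp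
    _ = 2 ^ (a + b) := by
        rw [Finset.sum_const, Finset.card_univ, smul_eq_mul, pow_add]
        simp

private theorem T3_cond {n a b N : ℕ} (hn : n = a + b) (P : List Bool → Prop)
    (Q : List Bool → List Bool → Prop) [DecidablePred P] [∀ u, DecidablePred (Q u)]
    (h : ∀ u : Fin a → Bool, P (List.ofFn u) →
      N * (Finset.univ.filter fun v : Fin b → Bool => Q (List.ofFn u) (List.ofFn v)).card ≤ 2 ^ b) :
    N * (Finset.univ.filter fun w : Fin n → Bool =>
      P ((List.ofFn w).take a) ∧ Q ((List.ofFn w).take a) ((List.ofFn w).drop a)).card ≤ 2 ^ n := by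
  subst hn
  exact count_cond P Q h

private theorem T3_first {a b N : ℕ} (R : List Bool → Prop) [DecidablePred R]
    (h : N * (Finset.univ.filter fun u : Fin a → Bool => R (List.ofFn u)).card ≤ 2 ^ a) :
    N * (Finset.univ.filter fun w : Fin (a + b) → Bool => R ((List.ofFn w).take a)).card
      ≤ 2 ^ (a + b) := by
  classical
  have h1 : (Finset.univ.filter fun w : Fin (a + b) → Bool => R ((List.ofFn w).take a)).card
      = (Finset.univ.filter fun x : (Fin a → Bool) × (Fin b → Bool) => R (List.ofFn x.1)).card := by
    symm
    refine Finset.card_equiv (Fin.appendEquiv a b) fun x => ?_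
    obtain ⟨u, v⟩ := x
    simp only [Finset.mem_filter, Finset.mem_univ, true_and]
    have h2 : List.ofFn ((Fin.appendEquiv a b) (u, v)) = List.ofFn u ++ List.ofFn v := by
      rw [← List.ofFn_fin_append]
      rfl
    rw [h2, List.take_append_of_le_length (by simp), List.take_of_length_le (by simp)]
  have h3 : (Finset.univ.filter fun x : (Fin a → Bool) × (Fin b → Bool) => R (List.ofFn x.1))
      = (Finset.univ.filter fun u : Fin a → Bool => R (List.ofFn u)) ×ˢ
        (Finset.univ : Finset (Fin b → Bool)) := by
    ext x
    simp
  rw [h1, h3, Finset.card_product, pow_add, ← mul_assoc]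
  refine Nat.mul_le_mul h ?_
  simp

/-- If in every step `i < K`, from every good state, the probability to leave the set of good states is at most
`1 / N`, then the probability that the state after `K` steps is not good is at most `K / N`. The string may be
longer than `K * L`. Induction on `K`: the state after `K + 1` steps is bad only if the state after `K` steps is bad
or it is good and step `K` is bad; `count_cond`, with `(K + 1) * L` bits, and for the additional bits
a bijection with pairs again. -/
theorem proc_bound (st : ℕ → ρ → List Bool → ρ) (L K T N : ℕ) (r0 : ρ) (G : ℕ → ρ → Prop)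
    [∀ i, DecidablePred (G i)] (h0 : G 0 r0) (hT : K ≤ T)
    (hst : ∀ i < K, ∀ r, G i r →
      N * (Finset.univ.filter fun c : Fin L → Bool => ¬ G (i + 1) (st i r (List.ofFn c))).card ≤ 2 ^ L) :
    N * (Finset.univ.filter fun w : Fin (T * L) → Bool =>
      ¬ G K (proc st L r0 K (List.ofFn w))).card ≤ K * 2 ^ (T * L) := by
  classical
  induction K with
  | zero =>
    have h1 : (Finset.univ.filter fun w : Fin (T * L) → Bool =>
        ¬ G 0 (proc st L r0 0 (List.ofFn w))) = ∅ := by
      rw [Finset.filter_eq_empty_iff]
      intro w _ hw
      exact hw h0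
    rw [h1]
    simp
  | succ K ih =>
    have ih' := ih (by omega) fun i hi => hst i (by omega)
    obtain ⟨M, hM⟩ : ∃ M, T = K + 1 + M := ⟨T - (K + 1), by omega⟩
    have hn : T * L = K * L + (L + M * L) := by rw [hM]; ring
    have hL : ∀ w : Fin (T * L) → Bool, (List.ofFn w).length = T * L := fun w => by simp
    have h1 : ∀ w : Fin (T * L) → Bool, proc st L r0 K (List.ofFn w)
        = proc st L r0 K ((List.ofFn w).take (K * L)) := by
      intro w
      conv_lhs => rw [← List.take_append_drop (K * L) (List.ofFn w)]
      refine proc_append st L r0 K _ _ ?_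
      rw [List.length_take, hL, hn]
      omega
    have h2 := T3_cond (N := N) hn (fun u => G K (proc st L r0 K u))
      (fun u v => ¬ G (K + 1) (st K (proc st L r0 K u) (v.take L))) (by
        intro u hu
        exact T3_first (fun c => ¬ G (K + 1) (st K (proc st L r0 K (List.ofFn u)) c))
          (hst K (by omega) _ hu))
    have h3 : (Finset.univ.filter fun w : Fin (T * L) → Bool =>
        ¬ G (K + 1) (proc st L r0 (K + 1) (List.ofFn w)))
        ⊆ (Finset.univ.filter fun w : Fin (T * L) → Bool =>
          ¬ G K (proc st L r0 K (List.ofFn w))) ∪
          (Finset.univ.filter fun w : Fin (T * L) → Bool =>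
            G K (proc st L r0 K ((List.ofFn w).take (K * L))) ∧
            ¬ G (K + 1) (st K (proc st L r0 K ((List.ofFn w).take (K * L)))
              (((List.ofFn w).drop (K * L)).take L))) := by
      intro w hw
      simp only [Finset.mem_filter, Finset.mem_univ, true_and, Finset.mem_union] at hw ⊢
      by_cases hG : G K (proc st L r0 K (List.ofFn w))
      · right
        rw [← h1 w]
        exact ⟨hG, hw⟩
      · left
        exact hG
    calc N * (Finset.univ.filter fun w : Fin (T * L) → Bool =>
          ¬ G (K + 1) (proc st L r0 (K + 1) (List.ofFn w))).card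
        ≤ N * ((Finset.univ.filter fun w : Fin (T * L) → Bool =>
          ¬ G K (proc st L r0 K (List.ofFn w))).card +
          (Finset.univ.filter fun w : Fin (T * L) → Bool =>
            G K (proc st L r0 K ((List.ofFn w).take (K * L))) ∧
            ¬ G (K + 1) (st K (proc st L r0 K ((List.ofFn w).take (K * L)))
              (((List.ofFn w).drop (K * L)).take L))).card) :=
          Nat.mul_le_mul_left _ ((Finset.card_le_card h3).trans (Finset.card_union_le _ _))
      _ ≤ K * 2 ^ (T * L) + 2 ^ (T * L) := by
          rw [mul_add]
          exact add_le_add ih' h2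
      _ = (K + 1) * 2 ^ (T * L) := by ring

end Pool.Agent.HS
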